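import Pool.Agent.U233.PW.ConvP

/-!
# Full Hodge groups: the Hodge conjecture for products of powers with an arbitrary variety

Let `T` be the theory `X ↦ H(X, ℚ)` with its Hodge decomposition, on the smooth projective varieties
over `ℂ`. (The theorem is proved for every Weil cohomology theory with rational coefficients and a
compatible Hodge decomposition, on a class of varieties which is closed under products: `Theory`.)
The Hodge conjecture for `X`, `(coho T X).HC`, says that all Hodge classes on `X`, of all degrees,
are algebraic.

**The members of the family.** Let `V_i`, `i ∈ ι`, be pure polarised Hodge structures of levels
`d_i > 0` (the level is the maximum of `|p - q|`) with *full Hodge groups*: the Hodge structure on the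
Lie algebra of the operators which are skew for the polarisation has only scalar endomorphisms; this
is the case if the Hodge group is the full symplectic group (`d_i` odd) or the full special
orthogonal group (`d_i` even). Let `d_i` be odd or `dim V_i ≥ 10`. Assume that for `i ≠ j` there are
no nonzero homomorphisms between Tate twists of `V_i` and `V_j`.

A *power* with respect to `V` is a power `X^m` of a variety `X` with `H(X) = (algebraic classes) + V`,
where `V` sits in the middle degree, and `m < dim V` if `dim X` is even. Examples: very general
hypersurfaces or complete intersections `X` of dimension `n`, with the primitive cohomology `V`
(`dim V ≥ 10` if `n` is even), cubic threefolds, K3 surfaces `X` with the full orthogonal Hodge group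
and `dim V = 22 - ρ ≥ 10`. Here and below one can also take varieties `P` whose cohomology algebra is
generated by `V` and by Hodge classes.

**The theorem.** Let `Z` be an **arbitrary** variety, whose cohomology is generated by Hodge
structures `U_1, …, U_m` (for example one structure `U = H(Z)`; or `Z = Z_1^(n_1) × ⋯ × Z_m^(n_m)` and
`U_a = H(Z_a)`), and by classes with complex multiplication. Let `i_1, …, i_n` be different indices and
`P_a` powers with respect to `V_(i_a)`. Assume for all `i = i_b` and `U = U_a` one of

* (`ByLevel`) the level of `U` is at most `d_i`, and there are no nonzero homomorphisms from `V_i` to
  Tate twists of `U`; and `d_i` is odd, or the extreme Hodge number of `V_i` is at least `5`, or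
  `dim V_i = N ≥ 10` and `dim U < bound N = min(2 n (n - 1), 2^(n - 1))`, `n = [N / 2]`;
* (`BySize`) `dim V_i ≥ 10` and `dim U < dim V_i`;
* (`ByNumbers`) `dim V_i = N ≥ 10`, `dim U < bound N`, and no twist of `U` has Hodge numbers
  `h^(p+a,q+b)(U) ≥ h^(p,q)(V_i)` for all `p, q`.

Then

* `HC(P_1 × ⋯ × P_n × Z)  ⟺  HC(Z)`, for cycles of all codimensions: **the powers satisfy the Hodge
  conjecture unconditionally, also in products**;
* all Hodge classes on `P_1 × ⋯ × P_n × Z` are linear combinations of products of Hodge classes on
  the factors.

In particular (`Threefolds`): the Hodge conjecture **holds** for `P_1 × ⋯ × P_n × Z` for every variety
`Z` of dimension at most `3`, if for example all `d_i ≥ 4` (and for even `d_i` the extreme Hodge number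
is at least `5`, or the sum of the Betti numbers of `Z` is smaller than `bound (dim V_i)`); or if
`dim V_i ≥ 10` exceeds the sum of the Betti numbers of `Z`; or if the `V_i` do not occur in `H(Z)` and
`d_i ≥ dim Z`.

Without the conditions the same is true outside a finite set `E(U_1) ∪ ⋯ ∪ E(U_m)` of indices: `E(U)`
has at most `dim U - dim U'` elements, where `U'` is the part with complex multiplication, for
`U = H(Z)` at most `(b - b') / 2`; so for every `Z` of dimension `≤ 3` the Hodge conjecture holds for
`P × Z` for almost all members of an infinite family. Some conditions are necessary for this method:
the Hodge group of a structure of K3 type acts on the Kuga-Satake abelian variety, of level `1` and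
dimension at least `2^(n - 1)`, and on `Λ^2 V`, of dimension `≥ 2 n (n - 1)`. The bound comes from
these two: it is the optimal one, up to lower order terms.

## The proof

The operators `T(σ, z, w)`, which multiply the `σ`-conjugates of the vectors of type `(p, q)` by
`z^p w^q`, for all automorphisms `σ` of `ℂ` and `z, w ∈ ℂˣ`, generate a group which acts on the complex
cohomology of all varieties, compatibly with all structures. By the theory of the derivations of the
category of its representations and of its perfect core (the starting library, `MP_021685_ag`) it is
enough to show: if the image of the core in `End V ⊕ End U` is not the direct sum of the images, then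
`V` occurs in `U`.

* The core of `V` consists of skew operators, and by descent a stable subspace is defined over `K`;
  so the core is the Lie algebra `L` of all skew operators, also for subgroups of finite index
  (`irr_fin`), and if `V` does not split off from `U` we get an injective homomorphism
  `Φ : L → End U` of Lie algebras which is compatible with the group (`exists_phi`, `phi_inj`).
* (Level.) `V` and `U` are graded by `p - q`, and `Φ` respects the degrees. Since `|p - q| ≤ d` on `U`,
  products of two raising operators vanish; this gives an `L`-equivariant map `V → U`
  (`exists_sp`, `exists_so`).
* (Dimension.) Take a hyperbolic basis `e_l, f_l` of `V` and the operators `H_l = Φ(e_l ∧ f_l)`. By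
  computations with `sl_2`-triples (`sl2_int`) the joint eigenvalues on `U` are half integral, and the
  set of weights is stable under some moves (`Mv`). If there is a weight different from `0`, `± ε_l`
  then there are at least `min(2 n (n - 1), 2^(n - 1))` weights (`count`), a contradiction to the
  dimension of `U`. So `Σ H_l` has only the eigenvalues `0, ± 1`, and the argument above, with this
  grading, gives an `L`-equivariant map `V → U` (`exists_small`, `spl_dim`). (No classification and no
  highest weights are used.)
* The space of all `L`-equivariant maps `V → U` is stable under the group, and `V ⊗ Hom_L(V, U) → U` is
  injective. So under the conditions on the level, the dimension or the Hodge numbers there is a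
  nonzero map all of whose conjugates have type `(j, j)`, and by descent a nonzero rational one: `V`
  occurs in `U(j)` (`pureOf`, `num_bot`, `exists_tw`).
* For two members of the family one takes the one with the larger dimension, or with the larger level
  for equal dimensions, as `V`. Splitting off is a symmetric relation.
* For the powers one uses the first fundamental theorem of the invariant theory of the orthogonal and
  the symplectic group, in the form of the starting library, with coefficients in `H(Z)`: the classes
  killed by `L` are generated by the algebraic classes on `X`, by the diagonals and by the classes on
  `Z` (`tate_pow`; `model_trans` shows that `V` is the orthogonal complement of the algebraic classes,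
  and that numerical and homological equivalence agree on `X`).
* If the algebra of `P` is generated by `V` and by Hodge classes, the operator `p - q` belongs to `L`,
  and it extends to the derivation `p - q` of `H(P)`. It kills the classes with complex
  multiplication; so they are combinations of Hodge classes (`twisted_der`).
-/

universe u

namespace Pool.Agent.U233.PW.Old.FullHodgeGroupsPowers

open Pool.Agent.H914 Pool.Agent.U233.HG.St

/-- **Full Hodge groups, powers, an arbitrary variety, and the Hodge conjecture.** -/
theorem result {k : Type u} [Field k] {𝒱 : VarClass k} {ops : CycleOps 𝒱} (T : Theory ops)
    (ι : Type) (V : ι → HS T.F) (d : ι → ℕ) (hV : FullFam V d) :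
    ∃ E : HS T.F → Set ι, FullDec T V d E ∧ (Classical T → Threefolds T V d E) :=
  full_dec T hV

end Pool.Agent.U233.PW.Old.FullHodgeGroupsPowers
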